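import Pool.Agent.Q94.HXE

/-!
# The face lattice of the cone of non-negative polygonal measures is not determined by the
oriented matroid

Two sets of six points in convex position (hence with the same oriented matroid) whose cones
`𝔎_pos` have non-isomorphic face lattices: an affinely regular hexagon, whose three long diagonals
meet in one point, and a convex hexagon whose long diagonals do not.  The first cone has at most
`24` coatoms (facets), one for each chamber, and the second has `25`.
-/

set_option autoImplicit false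

open Set MeasureTheory Q94.HX

namespace Pool.Agent.Results.MP_41af23_an.NotIsomorphic

/-- the chirotope -/
noncomputable def chi (a b c : ℂ) : SignType :=
  SignType.sign (Matrix.det !![1, 1, 1; a.re, b.re, c.re; a.im, b.im, c.im])

/-- three of the points are not collinear -/
def Spanning (S : Set ℂ) : Prop := ∃ a ∈ S, ∃ b ∈ S, ∃ c ∈ S, chi a b c ≠ 0

/-- no three of the points are collinear -/
def NoThreeCollinear (S : Set ℂ) : Prop :=
  ∀ a ∈ S, ∀ b ∈ S, ∀ c ∈ S, a ≠ b → b ≠ c → a ≠ c → chi a b c ≠ 0

/-- the two sets have the same oriented matroid -/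
def SameOrientedMatroid (S S' : Set ℂ) : Prop :=
  ∃ φ : S ≃ S', ∀ a b c : S, chi (φ a) (φ b) (φ c) = chi a b c

theorem chi_pt (a b c : ℤ × ℤ) : chi (pt a) (pt b) (pt c) = SignType.sign (oz a b c) := by
  have h : Matrix.det !![1, 1, 1; (pt a).re, (pt b).re, (pt c).re; (pt a).im, (pt b).im, (pt c).im]
      = ((oz a b c : ℤ) : ℝ) := by
    rw [Matrix.det_fin_three]
    unfold oz pt
    simp
    ring
  unfold chi
  rw [h]
  rcases lt_trichotomy (oz a b c) 0 with h1 | h1 | h1
  · rw [sign_neg h1, sign_neg (by exact_mod_cast h1)]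
  · rw [h1]
    simp
  · rw [sign_pos h1, sign_pos (by exact_mod_cast h1)]

theorem pt_inj : Function.Injective pt := by
  intro a b h
  unfold pt at h
  rw [Complex.mk.injEq] at h
  exact Prod.ext (by exact_mod_cast h.1) (by exact_mod_cast h.2)

theorem vert_inj {H : Hex} (hH : HexOk2 H) : Function.Injective fun i : Fin 6 => pt (H.P i) := by
  intro i j hij
  by_contra hne
  exact hH.inj i j hne (pt_inj hij)

/-- the numbering of the vertices -/
noncomputable def eqv {H : Hex} (hH : HexOk2 H) : Fin 6 ≃ vert H :=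
  Equiv.ofInjective (fun i : Fin 6 => pt (H.P i)) (vert_inj hH)

theorem eqv_apply {H : Hex} (hH : HexOk2 H) (i : Fin 6) : ((eqv hH i : vert H) : ℂ) = pt (H.P i) :=
  rfl

theorem same : SameOrientedMatroid (vert reg) (vert gen) := by
  refine ⟨(eqv reg_ok).symm.trans (eqv gen_ok), ?_⟩
  intro a b c
  obtain ⟨i, rfl⟩ := (eqv reg_ok).surjective a
  obtain ⟨j, rfl⟩ := (eqv reg_ok).surjective b
  obtain ⟨k, rfl⟩ := (eqv reg_ok).surjective c
  have h : ∀ m : Fin 6, ((eqv reg_ok).symm.trans (eqv gen_ok)) (eqv reg_ok m) = eqv gen_ok m := by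
    intro m
    rw [Equiv.trans_apply, Equiv.symm_apply_apply]
  rw [h, h, h, eqv_apply, eqv_apply, eqv_apply, eqv_apply, eqv_apply, eqv_apply, chi_pt, chi_pt,
    same_om]

theorem no_three_vert {H : Hex} (h : ∀ i j k : Fin 6, i ≠ j → j ≠ k → i ≠ k →
    oz (H.P i) (H.P j) (H.P k) ≠ 0) : NoThreeCollinear (vert H) := by
  rintro _ ⟨i, rfl⟩ _ ⟨j, rfl⟩ _ ⟨k, rfl⟩ hij hjk hik
  have h1 := h i j k (fun e => hij (by rw [e])) (fun e => hjk (by rw [e])) (fun e => hik (by rw [e]))
  rw [chi_pt]
  intro h2
  rw [sign_eq_zero_iff] at h2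
  exact h1 h2

theorem spanning_vert {H : Hex} (h : oz (H.P 0) (H.P 1) (H.P 2) ≠ 0) : Spanning (vert H) := by
  refine ⟨_, ⟨0, rfl⟩, _, ⟨1, rfl⟩, _, ⟨2, rfl⟩, ?_⟩
  rw [chi_pt]
  intro h2
  rw [sign_eq_zero_iff] at h2
  exact h h2

/-- There are two finite spanning sets, even with no three points collinear, which have the same
oriented matroid and whose cones of non-negative polygonal measures have non-isomorphic face
lattices. -/
theorem result : ∃ S S' : Set ℂ, S.Finite ∧ S'.Finite ∧ Spanning S ∧ Spanning S' ∧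
    NoThreeCollinear S ∧ NoThreeCollinear S' ∧ SameOrientedMatroid S S' ∧
    IsEmpty (Face (Kpos S) ≃o Face (Kpos S')) := by
  refine ⟨vert reg, vert gen, finite_range _, finite_range _,
    spanning_vert (no_three 0 1 2 (by decide) (by decide) (by decide)).1,
    spanning_vert (no_three 0 1 2 (by decide) (by decide) (by decide)).2,
    no_three_vert fun i j k h1 h2 h3 => (no_three i j k h1 h2 h3).1,
    no_three_vert fun i j k h1 h2 h3 => (no_three i j k h1 h2 h3).2, same, ?_⟩
  rw [kpos_eq reg_ok, kpos_eq gen_ok]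
  have hw : ∀ i : Fin gen.samples.length, ∀ j : Fin gen.samples.length,
      (i = j → dens gen (wit.getD i.val []) (smp gen j) = 0) ∧
      (i ≠ j → 0 < dens gen (wit.getD i.val []) (smp gen j)) := by
    intro i j
    have h := wit_ok i j
    have e : smp gen j = (gen.samples.getD j.val ((0, 0), [])).1 := by
      unfold smp
      rw [List.getD_eq_getElem _ _ j.2]
      rfl
    rw [e]
    exact h
  refine not_iso (fan_mem (H := reg)) (fan_pos reg_ok) (fan_mem (H := gen)) (fan_pos gen_ok)
    (p := fun i : Fin gen.samples.length => comb gen (wit.getD i.val [])) (fun i => comb_mem _)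
    ?_ ?_ ?_
  · intro i
    rw [evl_comb gen_ok, (hw i i).1 rfl]
    simp
  · intro i j hij
    rw [evl_comb gen_ok]
    exact mul_pos (by exact_mod_cast (hw i j).2 (Ne.symm hij)) (cell_real_pos gen_ok j)
  · rw [Fintype.card_fin, Fintype.card_fin, reg_len, gen_len]
    norm_num

end Pool.Agent.Results.MP_41af23_an.NotIsomorphic
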